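import Pool.Agent.W975.UF.Quot

/-!
# Graded criterion: from characters to the graded pieces
-/

set_option autoImplicit false

namespace Pool.Agent.Y802.GC

open IsLocalRing

section

variable {A : Type} [CommRing A] [IsLocalRing A] [IsNoetherianRing A] {p : ℕ}
  {B : Type} [Ring B] [Algebra A B] {H : Type} [Group H] [TopologicalSpace H]

/-- admissible characters -/
structure Adm (p : ℕ) (Ur : Set H) (f : H →* Multiplicative (ZMod p)) : Prop where
  isOpen : IsOpen (f.ker : Set H)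
  ur : ∀ τ ∈ Ur, f τ = 1

/-- the error terms -/
noncomputable def PP (p k : ℕ) (I : Submodule A B) (i : ℕ) : Submodule A B :=
  I ^ (i + 1) ⊔ (I ^ i).map (LinearMap.lsmul A B (p : A)) ⊔
    (maximalIdeal A ^ k) • (⊤ : Submodule A B)

theorem mem_PP_left {k : ℕ} {I : Submodule A B} {i : ℕ} {x : B} (hx : x ∈ I ^ (i + 1)) :
    x ∈ PP p k I i := Submodule.mem_sup_left (Submodule.mem_sup_left hx)

theorem mem_PP_mid {k : ℕ} {I : Submodule A B} {i : ℕ} {x : B} (hx : x ∈ I ^ i) :
    (p : A) • x ∈ PP p k I i :=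
  Submodule.mem_sup_left (Submodule.mem_sup_right ⟨x, hx, rfl⟩)

theorem mem_PP_right {k : ℕ} {I : Submodule A B} {i : ℕ} {x : B}
    (hx : x ∈ (maximalIdeal A ^ k) • (⊤ : Submodule A B)) : x ∈ PP p k I i :=
  Submodule.mem_sup_right hx

theorem smulTop_mul_right {k : ℕ} {x : B} (hx : x ∈ (maximalIdeal A ^ k) • (⊤ : Submodule A B))
    (y : B) : x * y ∈ (maximalIdeal A ^ k) • (⊤ : Submodule A B) := by
  induction hx using Submodule.smul_induction_on' with
  | smul r hr n _ =>
    rw [smul_mul_assoc]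
    exact Submodule.smul_mem_smul hr trivial
  | add x _ z _ hx hz =>
    rw [add_mul]
    exact Submodule.add_mem _ hx hz

theorem smulTop_mul_left {k : ℕ} {x : B} (hx : x ∈ (maximalIdeal A ^ k) • (⊤ : Submodule A B))
    (y : B) : y * x ∈ (maximalIdeal A ^ k) • (⊤ : Submodule A B) := by
  induction hx using Submodule.smul_induction_on' with
  | smul r hr n _ =>
    rw [mul_smul_comm]
    exact Submodule.smul_mem_smul hr trivial
  | add x _ z _ hx hz =>
    rw [mul_add]
    exact Submodule.add_mem _ hx hz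

theorem PP_mul {k : ℕ} {I : Submodule A B} {i j : ℕ} {x y : B} (hx : x ∈ PP p k I i)
    (hy : y ∈ I ^ j) : x * y ∈ PP p k I (i + j) := by
  obtain ⟨u, hu, w, hw, rfl⟩ := Submodule.mem_sup.1 hx
  obtain ⟨v, hv, _, ⟨z, hz, rfl⟩, rfl⟩ := Submodule.mem_sup.1 hu
  rw [add_mul, add_mul]
  refine Submodule.add_mem _ (Submodule.add_mem _ ?_ ?_) ?_
  · apply mem_PP_left
    have : i + j + 1 = (i + 1) + j := by ring
    rw [this, pow_add]
    exact Submodule.mul_mem_mul hv hy
  · rw [LinearMap.lsmul_apply, smul_mul_assoc]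
    apply mem_PP_mid
    rw [pow_add]
    exact Submodule.mul_mem_mul hz hy
  · exact mem_PP_right (smulTop_mul_right hw y)

theorem mul_PP {k : ℕ} {I : Submodule A B} {i j : ℕ} {x y : B} (hx : x ∈ PP p k I i)
    (hy : y ∈ I ^ j) : y * x ∈ PP p k I (j + i) := by
  obtain ⟨u, hu, w, hw, rfl⟩ := Submodule.mem_sup.1 hx
  obtain ⟨v, hv, _, ⟨z, hz, rfl⟩, rfl⟩ := Submodule.mem_sup.1 hu
  rw [mul_add, mul_add]
  refine Submodule.add_mem _ (Submodule.add_mem _ ?_ ?_) ?_
  · apply mem_PP_left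
    rw [add_assoc, pow_add]
    exact Submodule.mul_mem_mul hy hv
  · rw [LinearMap.lsmul_apply, mul_smul_comm]
    apply mem_PP_mid
    rw [pow_add]
    exact Submodule.mul_mem_mul hy hz
  · exact mem_PP_right (smulTop_mul_left hw y)

theorem ofFn_mem {I : Submodule A B} {i : ℕ} (x : Fin i → B) (hx : ∀ t, x t ∈ I) :
    (List.ofFn x).prod ∈ I ^ i := by
  rw [Submodule.pow_eq_span_pow_set]
  apply Submodule.subset_span
  rw [Set.mem_pow]
  exact ⟨fun t => ⟨x t, hx t⟩, rfl⟩

theorem prod_congr {k : ℕ} {I : Submodule A B} {i : ℕ} (x y : Fin i → B)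
    (hx : ∀ t, x t ∈ I) (hy : ∀ t, y t ∈ I) (hxy : ∀ t, x t - y t ∈ PP p k I 1) :
    (List.ofFn x).prod - (List.ofFn y).prod ∈ PP p k I i := by
  induction i with
  | zero => simp
  | succ i ih =>
    rw [List.ofFn_succ, List.ofFn_succ, List.prod_cons, List.prod_cons]
    have h1 := ih (fun t => x t.succ) (fun t => y t.succ) (fun t => hx _) (fun t => hy _)
      (fun t => hxy _)
    have h2 := ofFn_mem (fun t : Fin i => x t.succ) (fun t => hx _)
    have e1 : x 0 * (List.ofFn fun t : Fin i => x t.succ).prod -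
        y 0 * (List.ofFn fun t : Fin i => y t.succ).prod =
        (x 0 - y 0) * (List.ofFn fun t : Fin i => x t.succ).prod +
        y 0 * ((List.ofFn fun t : Fin i => x t.succ).prod -
          (List.ofFn fun t : Fin i => y t.succ).prod) := by
      rw [sub_mul, mul_sub]
      abel
    rw [e1]
    refine Submodule.add_mem _ ?_ ?_
    · have := PP_mul (hxy 0) h2
      rwa [add_comm 1 i] at this
    · have := mul_PP (j := 1) h1 (by rw [pow_one]; exact hy 0)
      rwa [add_comm 1 i] at this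

end

section

variable {p : ℕ} {H : Type} [Group H] [TopologicalSpace H] [IsTopologicalGroup H] {Ur : Set H}

theorem coords' [Fact p.Prime] {M : Type} [AddCommGroup M] [Module (ZMod p) M] [Finite M]
    (Y : H → M) (hY : ∀ g h, Y (g * h) = Y g + Y h)
    (U : Subgroup H) (hU : IsOpen (U : Set H)) (hYU : ∀ g ∈ U, Y g = 0)
    (hYr : ∀ τ ∈ Ur, Y τ = 0) :
    ∃ (r : ℕ) (f : Fin r → (H →* Multiplicative (ZMod p))) (b : Fin r → M),
      (∀ s, Adm p Ur (f s)) ∧
      ∀ g, Y g = ∑ s, ((Multiplicative.toAdd (f s g)).val : ℤ) • b s := by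
  let b := Module.finBasis (ZMod p) M
  have hf : ∀ s, ∃ f : H →* Multiplicative (ZMod p),
      (∀ g, f g = Multiplicative.ofAdd (b.repr (Y g) s)) ∧ IsOpen (f.ker : Set H) ∧
      ∀ τ ∈ Ur, f τ = 1 := by
    intro s
    refine Pool.Agent.W975.UF.additive_map (fun g => b.repr (Y g) s) (fun g h => ?_) U hU
      (fun g hg => ?_) (fun τ hτ => ?_)
    · show b.repr (Y (g * h)) s = _
      rw [hY, map_add, Finsupp.add_apply]
    · show b.repr (Y g) s = _
      rw [hYU g hg, map_zero, Finsupp.zero_apply]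
    · show b.repr (Y τ) s = _
      rw [hYr τ hτ, map_zero, Finsupp.zero_apply]
  choose f hf1 hf2 hf3 using hf
  refine ⟨_, f, b, fun s => ⟨hf2 s, hf3 s⟩, fun g => ?_⟩
  conv_lhs => rw [← b.sum_repr (Y g)]
  refine Finset.sum_congr rfl fun s _ => ?_
  rw [hf1, toAdd_ofAdd, natCast_zsmul, ← Nat.cast_smul_eq_nsmul (ZMod p), ZMod.natCast_val,
    ZMod.cast_id', id]

theorem coords (hp : p.Prime) {M : Type} [AddCommGroup M] [Finite M] (hpM : ∀ x : M, p • x = 0)
    (Y : H → M) (hY : ∀ g h, Y (g * h) = Y g + Y h)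
    (U : Subgroup H) (hU : IsOpen (U : Set H)) (hYU : ∀ g ∈ U, Y g = 0)
    (hYr : ∀ τ ∈ Ur, Y τ = 0) :
    ∃ (r : ℕ) (f : Fin r → (H →* Multiplicative (ZMod p))) (b : Fin r → M),
      (∀ s, Adm p Ur (f s)) ∧
      ∀ g, Y g = ∑ s, ((Multiplicative.toAdd (f s g)).val : ℤ) • b s :=
  @coords' p H _ _ _ Ur ⟨hp⟩ M _ (AddCommGroup.zmodModule hpM) _ Y hY U hU hYU hYr

end

section

variable {A : Type} [CommRing A] [IsLocalRing A] [IsNoetherianRing A] {p : ℕ}
  {B : Type} [Ring B] [Algebra A B] [Module.Finite A B] {H : Type} [Group H] [TopologicalSpace H]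
  [IsTopologicalGroup H] {Ur : Set H} {X : H → B}

/-- approximation by finitely many characters -/
theorem approx (hp : p.Prime) (hfin : Finite (ResidueField A))
    (hX : ∀ g h, X (g * h) = X g + X h + X g * X h)
    (hU : ∀ k : ℕ, ∃ U : Subgroup H, IsOpen (U : Set H) ∧
      ∀ g ∈ U, X g ∈ (maximalIdeal A ^ k) • (⊤ : Submodule A B))
    (hUr : ∀ τ ∈ Ur, X τ = 0) (k : ℕ) :
    ∃ (r : ℕ) (f : Fin r → (H →* Multiplicative (ZMod p))) (β : Fin r → B),
      (∀ s, Adm p Ur (f s)) ∧ (∀ s, β s ∈ Submodule.span A (Set.range X)) ∧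
      ∀ g, X g - ∑ s, ((Multiplicative.toAdd (f s g)).val : ℤ) • β s ∈
        PP p k (Submodule.span A (Set.range X)) 1 := by
  set I : Submodule A B := Submodule.span A (Set.range X) with hI
  have hXI : ∀ g, X g ∈ I := fun g => Submodule.subset_span ⟨g, rfl⟩
  have hmk0 : ∀ y : I, (y : B) ∈ PP p k I 1 →
      ((PP p k I 1).comap I.subtype).mkQ y = 0 := fun y hy =>
    (Submodule.Quotient.mk_eq_zero _).2 hy
  have hsurj : ∀ x : ↥I ⧸ (PP p k I 1).comap I.subtype,
      ∃ y : I, ((PP p k I 1).comap I.subtype).mkQ y = x := fun x =>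
    Submodule.Quotient.mk_surjective _ x
  have hpM : ∀ x : ↥I ⧸ (PP p k I 1).comap I.subtype, p • x = 0 := by
    intro x
    obtain ⟨y, rfl⟩ := hsurj x
    rw [← Nat.cast_smul_eq_nsmul A, ← map_smul]
    apply hmk0
    show (p : A) • (y : B) ∈ _
    apply mem_PP_mid
    rw [pow_one]
    exact y.2
  have hMfin : Finite (↥I ⧸ (PP p k I 1).comap I.subtype) := by
    refine Pool.Agent.W975.UF.finite_quot hfin k fun a ha x => ?_
    obtain ⟨y, rfl⟩ := hsurj x
    rw [← map_smul]
    apply hmk0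
    exact mem_PP_right (Submodule.smul_mem_smul ha trivial)
  obtain ⟨U, hUo, hUX⟩ := hU k
  obtain ⟨r, f, b, hf, hfb⟩ := coords (Ur := Ur) hp hpM
    (fun g => ((PP p k I 1).comap I.subtype).mkQ ⟨X g, hXI g⟩) (fun g h => by
      rw [← map_add, ← sub_eq_zero, ← map_sub]
      apply hmk0
      show X (g * h) - (X g + X h) ∈ PP p k I 1
      rw [hX, add_sub_cancel_left]
      apply mem_PP_left
      rw [pow_succ, pow_one]
      exact Submodule.mul_mem_mul (hXI g) (hXI h)) U hUo
    (fun g hg => hmk0 _ (mem_PP_right (hUX g hg)))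
    (fun τ hτ => hmk0 _ (by
      show X τ ∈ _
      rw [hUr τ hτ]
      exact Submodule.zero_mem _))
  choose β hβ using fun s => hsurj (b s)
  refine ⟨_, f, fun s => (β s : B), hf, fun s => (β s).2, fun g => ?_⟩
  have h2 : ((PP p k I 1).comap I.subtype).mkQ (⟨X g, hXI g⟩ -
      ∑ s, ((Multiplicative.toAdd (f s g)).val : ℤ) • β s) = 0 := by
    rw [map_sub, sub_eq_zero, hfb g, map_sum]
    refine Finset.sum_congr rfl fun s _ => ?_
    rw [map_zsmul, hβ]
  have h3 := (Submodule.Quotient.mk_eq_zero _).1 h2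
  have h4 : (I.subtype (⟨X g, hXI g⟩ -
      ∑ s, ((Multiplicative.toAdd (f s g)).val : ℤ) • β s)) ∈ PP p k I 1 := h3
  rw [map_sub, map_sum] at h4
  simpa using h4

end

end Pool.Agent.Y802.GC
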